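import Pool.Agent.R185.FracTransEx

/-!
# Greedy weights are not optimal for Staller in the fractional transversal game

The hypergraph has the vertices `z, a, b, c, d, x, y, y'` and the edges
`{z}, {a}, {a,b}, {b,c}, {c,d}, {d}, {x,y}, {x,y'}`; the game starts from the zero cover function
with a move of Edge-hitter.  Every greedy strategy of Staller guarantees at most `5`, whereas
Staller can secure `31/6`.
-/

open Finset

namespace Pool.Agent.Results.MP_c71ca1_co.GreedyNotOptimal

open Pool.Agent.R185.FracTrans

/-- The value under optimal play of the game which starts from the cover function `t`, the total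
weight added during play being counted. (The file `FracTrans` shows that it is equal to
`upperValue H t first`.) -/
noncomputable def value {V : Type} [DecidableEq V] (H : FinHypergraph V) (t : V → ℝ)
    (first : Player) : EReal := lowerValue H t first

/-- Each submove of the move `m` has the largest legal weight: the largest `w ≥ 0` which keeps the
submove at the vertex `m.vert k` legal and does not exceed the unspent budget. -/
def IsGreedyMove {V : Type} [DecidableEq V] (H : FinHypergraph V) (t : V → ℝ) (m : Move V) :
    Prop :=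
  ∀ k : ℕ, (k : ℕ∞) < m.len →
    IsGreatest {w : ℝ | 0 ≤ w ∧ w ≤ 1 - ∑ s ∈ range k, m.wt s ∧
      ∃ E ∈ H.edges, m.vert k ∈ E ∧ load t E + m.placed E k + w ≤ 1} (m.wt k)

/-- `σ` is a strategy of Staller in which each of her submoves has the largest legal weight. -/
def IsGreedyStrategy {V : Type} [DecidableEq V] (H : FinHypergraph V) (t : V → ℝ)
    (first : Player) (σ : Strategy V) : Prop :=
  IsStrategy H t .staller first σ ∧
    ∀ L, IsPlay H t L → Follows .staller first σ L → ¬ FullyCovered H (final t L) →
      mover first L.length = .staller → IsGreedyMove H (final t L) (σ L)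

/-- The strategy `σ` of Staller guarantees at least the value of the game. -/
def IsOptimalStrategy {V : Type} [DecidableEq V] (H : FinHypergraph V) (t : V → ℝ)
    (first : Player) (σ : Strategy V) : Prop :=
  IsStrategy H t .staller first σ ∧
    ∀ L, IsCompletePlay H t L → Follows .staller first σ L →
      value H t first ≤ (totalWeight L : EReal)

/-- A greedy move of Staller after the integer move at `x` acts like an integer move. -/
lemma greedy_move {m : Move (Fin 8)}
    (hm : Legal H₀ (fun u => if u = 5 then (1 : ℝ) else 0) m)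
    (hg : IsGreedyMove H₀ (fun u => if u = 5 then (1 : ℝ) else 0) m) :
    ∃ v v', GoodReply (pos v) v' ∧ after (fun u => if u = 5 then (1 : ℝ) else 0) m = pos v ∧
      m.weight = 1 := by
  have hnn : ∀ u : Fin 8, (0 : ℝ) ≤ if u = 5 then 1 else 0 := fun u => by split_ifs <;> norm_num
  have hsum : ∑ u : Fin 8, (if u = 5 then (1 : ℝ) else 0) = 1 := by simp
  have hw : m.weight = 1 := weight_eq_one hnn hm (by rw [hsum]; norm_num)
  -- the first submove of positive weight
  have hex : ∃ k, 0 < m.wt k := by
    by_contra hcon
    push Not at hcon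
    have h0 : ∀ k, m.wt k = 0 := fun k => le_antisymm (hcon k) (hm.wt_nonneg k)
    have : m.weight = 0 := by
      unfold Move.weight
      simp [h0]
    rw [this] at hw
    norm_num at hw
  classical
  obtain ⟨k, hk, hmin⟩ : ∃ k, 0 < m.wt k ∧ ∀ s < k, m.wt s = 0 :=
    ⟨Nat.find hex, Nat.find_spec hex,
      fun s hs => le_antisymm (not_lt.1 (Nat.find_min hex hs)) (hm.wt_nonneg s)⟩
  have hkl : (k : ℕ∞) < m.len := by
    by_contra hkl
    rw [m.wt_eq_zero k (not_lt.1 hkl)] at hk
    exact lt_irrefl _ hk
  have hplaced : ∀ E, m.placed E k = 0 := by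
    intro E
    unfold Move.placed
    refine Finset.sum_eq_zero fun s hs => ?_
    rw [hmin s (Finset.mem_range.1 hs)]
    simp
  obtain ⟨E, hE, hv, hl⟩ := hm.submove k hkl
  rw [hplaced] at hl
  have hlt : load (fun u => if u = 5 then (1 : ℝ) else 0) E < 1 := by linarith
  obtain ⟨v', hgood⟩ := exists_good (v := m.vert k) ⟨E, hE, hv, hlt⟩
  -- the load of `E` is zero
  have hload : load (fun u => if u = 5 then (1 : ℝ) else 0) E = 0 := by
    rw [load_eq_sum hlt, Finset.sum_ite_eq']
    split_ifs with h5
    · rw [load_eq_sum hlt, Finset.sum_ite_eq', if_pos h5] at hlt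
      exact absurd hlt (lt_irrefl _)
    · rfl
  have hwt : m.wt k = 1 := by
    refine le_antisymm (hm.bounds k hkl).2 ?_
    refine (hg k hkl).2 ⟨zero_le_one, ?_, E, hE, hv, ?_⟩
    · rw [Finset.sum_eq_zero fun s hs => hmin s (Finset.mem_range.1 hs)]
      norm_num
    · rw [hload, hplaced]; norm_num
  have hother : ∀ s, s ≠ k → m.wt s = 0 := by
    intro s hs
    have h1 : m.wt k + m.wt s ≤ m.weight := by
      have := hm.summable.sum_le_tsum {k, s} (fun i _ => hm.wt_nonneg i)
      rw [Finset.sum_pair hs.symm] at this
      exact this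
    have := hm.wt_nonneg s
    linarith
  refine ⟨m.vert k, v', hgood, ?_, hw⟩
  funext u
  unfold after pos Move.added
  congr 1
  rw [tsum_eq_single k]
  · rw [hwt]
    simp [eq_comm]
  · intro s hs
    rw [hother s hs]
    simp

/-- The negation of Q1: it is not true that for every hypergraph, every starting cover function
which does not fully cover it, and either choice of the first player, Staller has an optimal
strategy in which each of her submoves has the largest legal weight.  (The last conjunct records
that the values are well defined.) -/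
theorem result :
    (¬ ∀ (V : Type) [Fintype V] [DecidableEq V] (H : FinHypergraph V) (t₀ : V → ℝ),
      (∀ v, 0 ≤ t₀ v ∧ t₀ v ≤ 1) → ¬ FullyCovered H t₀ → ∀ first : Player,
        ∃ σ : Strategy V, IsGreedyStrategy H t₀ first σ ∧ IsOptimalStrategy H t₀ first σ) ∧
    ∀ (V : Type) [Nonempty V] [DecidableEq V] (H : FinHypergraph V) (t : V → ℝ) (first : Player),
      value H t first = upperValue H t first := by
  refine ⟨?_, fun V _ _ H t first => lowerValue_eq_upperValue H t first⟩
  intro hall
  have hi := intMove_isIntegerMove (5 : Fin 8)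
  have hload0 : load (fun _ : Fin 8 => (0 : ℝ)) {5, 6} ≤ 0 :=
    (load_pair_le _ (by decide)).trans (by norm_num)
  have hleg : Legal H₀ (fun _ => 0) (intMove 5) :=
    intMove_legal (E := {5, 6}) (by decide) (by decide) hload0
  have haft : after (fun _ => (0 : ℝ)) (intMove (5 : Fin 8)) = fun u => if u = 5 then 1 else 0 := by
    rw [hi.after]; simp
  have hnn : ∀ u : Fin 8, (0 : ℝ) ≤ if u = 5 then 1 else 0 := fun u => by split_ifs <;> norm_num
  have hsum : ∑ u : Fin 8, (if u = 5 then (1 : ℝ) else 0) = 1 := by simp
  have hnc0 : ¬ FullyCovered H₀ (fun _ => 0) := not_covered_of_sum (fun _ => le_rfl) (by simp)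
  have hnc : ¬ FullyCovered H₀ (fun u => if u = 5 then (1 : ℝ) else 0) :=
    not_covered_of_sum hnn (by rw [hsum]; norm_num)
  obtain ⟨σ, ⟨hσ, hgr⟩, hopt⟩ := hall (Fin 8) H₀ (fun _ => 0) (by intro v; norm_num) hnc0 .hitter
  -- Staller's first move
  have hplay1 : IsPlay H₀ (fun _ => 0) [intMove 5] := ⟨hnc0, hleg, trivial⟩
  have hfol1 : Follows .staller .hitter σ [intMove 5] := by
    rw [follows_cons_iff]
    exact ⟨by simp, follows_nil⟩
  have hfin1 : final (fun _ => (0 : ℝ)) [intMove (5 : Fin 8)] = fun u => if u = 5 then 1 else 0 :=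
    haft
  have hm2 := hσ [intMove 5] hplay1 hfol1 (by rw [hfin1]; exact hnc) rfl
  have hg2 := hgr [intMove 5] hplay1 hfol1 (by rw [hfin1]; exact hnc) rfl
  rw [hfin1] at hm2 hg2
  obtain ⟨v, v', hgood, haft2, hw2⟩ := greedy_move hm2 hg2
  obtain ⟨hm3, hrest⟩ := hgood
  set m₂ := σ [intMove 5] with hm₂
  -- Staller's second move
  have hncv : ¬ FullyCovered H₀ (pos v) :=
    not_covered_of_sum (pos_nonneg v) (by rw [sum_pos]; norm_num)
  have hn3 := after_nonneg (pos_nonneg v) hm3
  have hs3 := sum_after hm3
  rw [sum_pos, (intMove_isIntegerMove v').weight] at hs3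
  have hnc3 : ¬ FullyCovered H₀ (after (pos v) (intMove v')) :=
    not_covered_of_sum hn3 (by rw [hs3]; norm_num)
  have hfin3 : final (fun _ => (0 : ℝ)) [intMove (5 : Fin 8), m₂, intMove v'] =
      after (pos v) (intMove v') := by
    show after (after (after _ _) _) _ = _
    rw [haft, haft2]
  have hplay3 : IsPlay H₀ (fun _ => 0) [intMove 5, m₂, intMove v'] := by
    refine ⟨hnc0, hleg, ?_⟩
    rw [haft]
    refine ⟨hnc, hm2, ?_⟩
    rw [haft2]
    exact ⟨hncv, hm3, trivial⟩
  have hfol3 : Follows .staller .hitter σ [intMove 5, m₂, intMove v'] := by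
    rw [follows_cons_iff, follows_cons_iff, follows_cons_iff]
    exact ⟨by simp, fun _ => rfl, by simp [Player.other], follows_nil⟩
  have hm4 := hσ _ hplay3 hfol3 (by rw [hfin3]; exact hnc3) rfl
  rw [hfin3] at hm4
  set m₄ := σ [intMove 5, m₂, intMove v'] with hm₄
  obtain ⟨hw4, m₅, hm5, hw5, hc5⟩ := hrest m₄ hm4
  have hn4 := after_nonneg hn3 hm4
  have hs4 := sum_after hm4
  rw [hs3, hw4] at hs4
  have hnc4 : ¬ FullyCovered H₀ (after (after (pos v) (intMove v')) m₄) :=
    not_covered_of_sum hn4 (by rw [hs4]; norm_num)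
  have hplay5 : IsCompletePlay H₀ (fun _ => 0) [intMove 5, m₂, intMove v', m₄, m₅] := by
    refine ⟨⟨hnc0, hleg, ?_⟩, ?_⟩
    · rw [haft]
      refine ⟨hnc, hm2, ?_⟩
      rw [haft2]
      exact ⟨hncv, hm3, hnc3, hm4, hnc4, hm5, trivial⟩
    · show FullyCovered H₀ (after (after (after (after (after _ _) _) _) _) _)
      rw [haft, haft2]
      exact hc5
  have hfol5 : Follows .staller .hitter σ [intMove 5, m₂, intMove v', m₄, m₅] := by
    rw [follows_cons_iff, follows_cons_iff, follows_cons_iff, follows_cons_iff, follows_cons_iff]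
    exact ⟨by simp, fun _ => rfl, by simp [Player.other], fun _ => rfl, by simp [Player.other],
      follows_nil⟩
  have hval := hopt.2 _ hplay5 hfol5
  have htot : totalWeight [intMove 5, m₂, intMove v', m₄, m₅] ≤ 5 := by
    simp only [totalWeight, List.map_cons, List.map_nil, List.sum_cons, List.sum_nil]
    rw [hi.weight, hw2, (intMove_isIntegerMove v').weight, hw4]
    linarith
  have hlow : ((31 / 6 : ℝ) : EReal) ≤ value H₀ (fun _ => 0) .hitter := le_lowerValue staller_main
  have h5 := hlow.trans (hval.trans (EReal.coe_le_coe_iff.2 htot))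
  rw [EReal.coe_le_coe_iff] at h5
  norm_num at h5

end Pool.Agent.Results.MP_c71ca1_co.GreedyNotOptimal
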